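import Mathlib

namespace Pool.Agent.Helper68.DM

/-- The determinant of two plane vectors. -/
def cr (a b : ℝ × ℝ) : ℝ := a.1 * b.2 - a.2 * b.1

theorem cr_smul_id (a b c : ℝ × ℝ) : cr b c • a + cr c a • b + cr a b • c = 0 := by
  ext <;> simp [cr] <;> ring

theorem cr_pl (a b c d : ℝ × ℝ) : cr a b * cr c d - cr a c * cr b d + cr a d * cr b c = 0 := by
  simp [cr]; ring

theorem cr_anti (a b : ℝ × ℝ) : cr a b = - cr b a := by simp [cr]; ring

/-- `W = α Z - β G` when `Z` lies between `W` and `G`. -/
theorem rep {A X W : ℝ × ℝ} (h : 0 < cr A X) :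
    W = (cr A W / cr A X) • X - (cr X W / cr A X) • A := by
  have h0 := cr_smul_id A X W
  have hne : cr A X ≠ 0 := h.ne'
  have h1 : cr A X • W = cr A W • X - cr X W • A := by
    have h2 : cr W A = - cr A W := cr_anti _ _
    rw [h2] at h0
    have : cr A X • W = -(cr X W • A + (-cr A W) • X) := by
      rw [eq_neg_iff_add_eq_zero, add_comm]; exact h0
    rw [this, neg_smul]; abel
  have h3 : W = (cr A X)⁻¹ • (cr A X • W) := by rw [smul_smul, inv_mul_cancel₀ hne, one_smul]
  conv_lhs => rw [h3, h1, smul_sub, smul_smul, smul_smul]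
  congr 2 <;> ring_nf

/-- The monotonicity lemma. -/
theorem mono {E : Type*} [AddCommGroup E] [Module ℝ E] (N : Seminorm ℝ E) {x z z' : E} {α β : ℝ}
    (hα : 0 ≤ α) (hβ : 0 ≤ β) (h : z' = α • z - β • x) (hx : N x ≤ 1) (hz : N z = 1)
    (hz' : N z' = 1) : N (x + z') ≤ N (x + z) := by
  set D := N (x + z) with hD
  have h1 : α + β - 1 ≤ β * D := by
    have e : (α + β) • z = z' + β • (x + z) := by rw [h, add_smul, smul_add]; abel
    have h2 : N ((α + β) • z) ≤ N z' + N (β • (x + z)) := by rw [e]; exact map_add_le_add N _ _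
    rw [map_smul_eq_mul, map_smul_eq_mul, hz, hz', Real.norm_of_nonneg hβ,
      Real.norm_of_nonneg (add_nonneg hα hβ)] at h2
    linarith
  have h2 : 1 ≤ α + β := by
    have h3 : N z' ≤ N (α • z) + N (β • x) := by rw [h]; exact map_sub_le_add N _ _
    rw [map_smul_eq_mul, map_smul_eq_mul, hz, hz', Real.norm_of_nonneg hβ,
      Real.norm_of_nonneg hα] at h3
    nlinarith
  set s := α + β with hs
  have hs0 : 0 < s := by linarith
  have e : s • (x + z') = (s - 1) • z' + α • (x + z) := by
    rw [h]
    have : (s - 1) • (α • z - β • x) + α • (x + z)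
        = (s * α) • z + (α + β - s * β) • x := by
      rw [smul_sub, smul_smul, smul_smul, smul_add]
      have e1 : (s * α) • z = ((s - 1) * α) • z + α • z := by rw [← add_smul]; congr 1; ring
      have e2 : (α + β - s * β) • x = α • x - ((s - 1) * β) • x := by rw [← sub_smul]; congr 1; ring
      rw [e1, e2]; abel
    rw [this, smul_add, smul_sub, smul_smul, smul_smul]
    have e3 : (α + β - s * β) • x = s • x - (s * β) • x := by rw [← sub_smul]
    rw [e3]; abel
  have h3 : N (s • (x + z')) ≤ N ((s - 1) • z') + N (α • (x + z)) := by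
    rw [e]; exact map_add_le_add N _ _
  rw [map_smul_eq_mul, map_smul_eq_mul, map_smul_eq_mul, hz', Real.norm_of_nonneg hs0.le,
    Real.norm_of_nonneg hα, Real.norm_of_nonneg (by linarith)] at h3
  have h4 : s * N (x + z') ≤ s * D := by nlinarith
  exact le_of_mul_le_mul_left h4 hs0

/-- The local statement. -/
theorem core (N : Seminorm ℝ (ℝ × ℝ)) {A B G W x z : ℝ × ℝ} {ε κ : ℝ}
    (hA : N A = 1) (hB : N B = 1) (hG : N G = 1) (hW : N W = 1) (hx : N x = 1) (hz : N z = 1)
    (AB : 0 < cr A B) (AG : 0 < cr A G) (BG : 0 < cr B G) (AW : 0 < cr A W) (BW : 0 < cr B W)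
    (WG : 0 < cr W G) (h1 : N (B + G) < ε) (h2 : ε < N (A + W))
    (pA pG : ℝ × ℝ →ₗ[ℝ] ℝ) (hpA : ∀ u, pA u ≤ N u) (hpG : ∀ u, pG u ≤ N u) (hpA1 : pA A = 1)
    (hpG1 : pG G = 1) (h3 : κ ≤ pA W + pG W)
    (xz : 0 < cr x z) (hε : N (x + z) = ε) (Ax : 0 < cr A x) (xB : 0 ≤ cr x B)
    (p q : ℝ × ℝ →ₗ[ℝ] ℝ) (hp : ∀ u, p u ≤ N u) (hq : ∀ u, q u ≤ N u) (hpx : p x = 1)
    (hqz : q z = 1) : κ ≤ p W + q W := by
  have hneg : ∀ u, N (-u) = N u := fun u => map_neg_eq_map N u
  -- x G
  have xG : 0 < cr x G := by
    have e : cr A B * cr x G = cr A x * cr B G + cr A G * cr x B := by simp [cr]; ring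
    have : 0 < cr A B * cr x G := by rw [e]; nlinarith [mul_pos Ax BG, mul_nonneg AG.le xB]
    exact (pos_iff_pos_of_mul_pos this).mp AB
  have xW : 0 < cr x W := by
    have e : cr A B * cr x W = cr A x * cr B W + cr A W * cr x B := by simp [cr]; ring
    have : 0 < cr A B * cr x W := by rw [e]; nlinarith [mul_pos Ax BW, mul_nonneg AW.le xB]
    exact (pos_iff_pos_of_mul_pos this).mp AB
  -- z is strictly before G
  have zG : 0 < cr z G := by
    by_contra hcon
    have Gz : 0 ≤ cr G z := by rw [cr_anti]; linarith [not_lt.mp hcon]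
    have Bz : 0 < cr B z := by
      have e : cr x G * cr B z = cr x B * cr G z + cr x z * cr B G := by simp [cr]; ring
      have : 0 < cr x G * cr B z := by rw [e]; nlinarith [mul_pos xz BG, mul_nonneg xB Gz]
      exact (pos_iff_pos_of_mul_pos this).mp xG
    have m1 : N (B + z) ≤ N (B + G) := by
      refine mono N (α := cr B z / cr B G) (β := cr G z / cr B G) (by positivity)
        (by positivity) (rep BG) hB.le hG hz
    have m2 : N (z + x) ≤ N (z + B) := by
      -- x = α B - β z
      have e : x = (cr x z / cr B z) • B - (cr x B / cr B z) • z := by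
        have h0 := cr_smul_id B z x
        have hne : cr B z ≠ 0 := Bz.ne'
        have e1 : cr B z • x = cr x z • B - cr x B • z := by
          have a1 : cr z x = - cr x z := cr_anti _ _
          rw [a1] at h0
          have : cr B z • x = -((-cr x z) • B + cr x B • z) := by
            rw [eq_neg_iff_add_eq_zero, add_comm]; exact h0
          rw [this, neg_smul]; abel
        have e2 : x = (cr B z)⁻¹ • (cr B z • x) := by
          rw [smul_smul, inv_mul_cancel₀ hne, one_smul]
        conv_lhs => rw [e2, e1, smul_sub, smul_smul, smul_smul]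
        congr 2 <;> ring_nf
      exact mono N (by positivity) (by positivity) e hz.le hB hx
    rw [add_comm z x, add_comm z B] at m2
    linarith
  -- z is strictly after W
  have Wz : 0 < cr W z := by
    by_contra hcon
    have zW : 0 ≤ cr z W := by rw [cr_anti]; linarith [not_lt.mp hcon]
    have m1 : N (x + W) ≤ N (x + z) := by
      refine mono N (α := cr x W / cr x z) (β := cr z W / cr x z) (by positivity)
        (by positivity) (rep xz) hx.le hz hW
    have m2 : N (W + A) ≤ N (W + x) := by
      have e : A = (cr A W / cr x W) • x - (cr A x / cr x W) • W := by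
        have h0 := cr_smul_id A x W
        have hne : cr x W ≠ 0 := xW.ne'
        have e1 : cr x W • A = cr A W • x - cr A x • W := by
          have a1 : cr W A = - cr A W := cr_anti _ _
          rw [a1] at h0
          have : cr x W • A = -((-cr A W) • x + cr A x • W) := by
            rw [eq_neg_iff_add_eq_zero, ← add_assoc]; exact h0
          rw [this, neg_smul]; abel
        have e2 : A = (cr x W)⁻¹ • (cr x W • A) := by
          rw [smul_smul, inv_mul_cancel₀ hne, one_smul]
        conv_lhs => rw [e2, e1, smul_sub, smul_smul, smul_smul]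
        congr 2 <;> ring_nf
      exact mono N (by positivity) (by positivity) e hW.le hx hA
    rw [add_comm W A, add_comm W x] at m2
    linarith
  -- p W ≥ pA W
  have k1 : pA W ≤ p W := by
    have e := rep (W := W) Ax
    set α := cr A W / cr A x with hα
    set β := cr x W / cr A x with hβ
    have a0 : 0 ≤ α := by positivity
    have b0 : 0 ≤ β := by positivity
    have e1 : p W = α - β * p A := by rw [e]; simp [hpx]
    have e2 : pA W = α * pA x - β := by rw [e]; simp [hpA1]
    have l1 : p A ≤ 1 := (hp A).trans hA.le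
    have l2 : pA x ≤ 1 := (hpA x).trans hx.le
    rw [e1, e2]; nlinarith
  have k2 : pG W ≤ q W := by
    have e : W = (cr W G / cr z G) • z - (cr W z / cr z G) • G := by
      have h0 := cr_smul_id W z G
      have hne : cr z G ≠ 0 := zG.ne'
      have e1 : cr z G • W = cr W G • z - cr W z • G := by
        have a1 : cr G W = - cr W G := cr_anti _ _
        rw [a1] at h0
        have : cr z G • W = -((-cr W G) • z + cr W z • G) := by
          rw [eq_neg_iff_add_eq_zero, ← add_assoc]; exact h0
        rw [this, neg_smul]; abel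
      have e2 : W = (cr z G)⁻¹ • (cr z G • W) := by
        rw [smul_smul, inv_mul_cancel₀ hne, one_smul]
      conv_lhs => rw [e2, e1, smul_sub, smul_smul, smul_smul]
      congr 2 <;> ring_nf
    set α := cr W G / cr z G with hα
    set β := cr W z / cr z G with hβ
    have a0 : 0 ≤ α := by positivity
    have b0 : 0 ≤ β := by positivity
    have e1 : q W = α - β * q G := by rw [e]; simp [hqz]
    have e2 : pG W = α * pG z - β := by rw [e]; simp [hpG1]
    have l1 : q G ≤ 1 := (hq G).trans hG.le
    have l2 : pG z ≤ 1 := (hpG z).trans hz.le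
    rw [e1, e2]; nlinarith
  linarith

end Pool.Agent.Helper68.DM
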