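import Mathlib
import Pool.Agent.Helper68.DM.Core
import Pool.Agent.Helper68.DM.Data

namespace Pool.Agent.Helper68.DM

/-- The real vertices. -/
noncomputable def vR (j : ℕ) : ℝ × ℝ := (((V j).1 : ℝ), ((V j).2 : ℝ))

/-- The functional which equals `1` on the edge `[V k, V (k+1)]`. -/
noncomputable def pk (k : ℕ) : ℝ × ℝ →ₗ[ℝ] ℝ where
  toFun u := (u.1 * (E k).2 - u.2 * (E k).1) / (Dz k : ℝ)
  map_add' u w := by simp; ring
  map_smul' c u := by simp; ring

theorem pk_apply (k : ℕ) (u : ℝ × ℝ) :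
    pk k u = (u.1 * (E k).2 - u.2 * (E k).1) / (Dz k : ℝ) := rfl

/-- The embedding into `ℓ^∞(104)`. -/
noncomputable def Phi : ℝ × ℝ →ₗ[ℝ] (Fin 104 → ℝ) := LinearMap.pi fun k : Fin 104 => pk (k : ℕ)

theorem Phi_apply (u : ℝ × ℝ) (k : Fin 104) : Phi u k = pk k u := by
  rw [Phi, LinearMap.pi_apply]

/-- The polygonal norm on the plane. -/
noncomputable def N : Seminorm ℝ (ℝ × ℝ) := (normSeminorm ℝ (Fin 104 → ℝ)).comp Phi

theorem N_apply (u : ℝ × ℝ) : N u = ‖Phi u‖ := by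
  rw [N, Seminorm.comp_apply, coe_normSeminorm]

theorem cr_cast (a b : ℤ × ℤ) :
    cr ((a.1 : ℝ), (a.2 : ℝ)) ((b.1 : ℝ), (b.2 : ℝ)) = (crz a b : ℝ) := by
  simp [cr, crz]

theorem cr_vR (i j : ℕ) : cr (vR i) (vR j) = (crz (V i) (V j) : ℝ) := cr_cast _ _

theorem Dz_posR {k : ℕ} (hk : k < 208) : (0 : ℝ) < Dz k := by exact_mod_cast D_pos k hk

theorem pk_self {k : ℕ} (hk : k < 208) : pk k (vR k) = 1 := by
  rw [pk_apply, div_eq_one_iff_eq (Dz_posR hk).ne']
  simp [vR, E, Dz, crz]; ring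

theorem pk_next {k : ℕ} (hk : k < 208) : pk k (vR (k + 1)) = 1 := by
  rw [pk_apply, div_eq_one_iff_eq (Dz_posR hk).ne']
  simp [vR, E, Dz, crz]; ring

theorem abs_pk_le {k : ℕ} (hk : k < 104) (u : ℝ × ℝ) : |pk k u| ≤ N u := by
  have := norm_le_pi_norm (Phi u) ⟨k, hk⟩
  rw [Phi_apply, Real.norm_eq_abs] at this
  exact this

theorem pk_neg {k : ℕ} (hk : k < 104) (u : ℝ × ℝ) : pk (k + 104) u = - pk k u := by
  rw [pk_apply, pk_apply, E_neg k hk, D_per k hk]
  push_cast
  ring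

theorem pk_le {k : ℕ} (hk : k < 208) (u : ℝ × ℝ) : pk k u ≤ N u := by
  rcases lt_or_ge k 104 with h | h
  · exact (le_abs_self _).trans (abs_pk_le h u)
  · obtain ⟨m, rfl⟩ := Nat.exists_eq_add_of_le' h
    rw [pk_neg (by omega)]
    exact (neg_le_abs _).trans (abs_pk_le (by omega) u)

theorem vR_neg {j : ℕ} (hj : j < 104) : vR (j + 104) = - vR j := by
  simp [vR, V_neg j hj]

theorem N_vR {j : ℕ} (hj : j < 208) : N (vR j) = 1 := by
  have key : ∀ j < 104, N (vR j) = 1 := by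
    intro j hj
    apply le_antisymm
    · rw [N_apply, pi_norm_le_iff_of_nonneg zero_le_one]
      intro k
      rw [Phi_apply, Real.norm_eq_abs, abs_le, pk_apply]
      have hD := Dz_posR (k := k) (by omega)
      have h := hull k k.2 j hj
      have h1 : ((vR j).1 * (E k).2 - (vR j).2 * (E k).1) = ((crz (V j) (E k) : ℤ) : ℝ) := by
        simp [vR, crz]
      rw [h1]
      constructor
      · rw [le_div_iff₀ hD]; have := h.2; rify at this; linarith
      · rw [div_le_one hD]; exact_mod_cast h.1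
    · have := pk_le (k := j) (by omega) (vR j)
      rwa [pk_self (by omega)] at this
  rcases lt_or_ge j 104 with h | h
  · exact key j h
  · obtain ⟨m, rfl⟩ := Nat.exists_eq_add_of_le' h
    rw [vR_neg (by omega), map_neg_eq_map, key m (by omega)]

/-- The value of `ε`. -/
noncomputable def eps : ℝ := (en : ℝ) / (ed : ℝ)

/-- The value of `κ`. -/
noncomputable def kap : ℝ := (kn : ℝ) / (kd : ℝ)

theorem norm_sum_lt {s : ℝ × ℝ} {k : ℕ} (hk : k < 207) (h1 : 0 ≤ cr (vR k) s)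
    (h2 : 0 ≤ cr s (vR (k + 1))) : N s ≤ pk k s := by
  have hD := Dz_posR (k := k) (by omega)
  have hDc : cr (vR k) (vR (k + 1)) = (Dz k : ℝ) := cr_vR _ _
  have e : s = (cr s (vR (k + 1)) / Dz k) • vR k + (cr (vR k) s / Dz k) • vR (k + 1) := by
    have h0 := cr_smul_id (vR k) (vR (k + 1)) s
    rw [hDc] at h0
    have a1 : cr (vR (k + 1)) s = - cr s (vR (k + 1)) := cr_anti _ _
    have a2 : cr s (vR k) = - cr (vR k) s := cr_anti _ _
    rw [a1, a2] at h0
    have e1 : (Dz k : ℝ) • s = cr s (vR (k + 1)) • vR k + cr (vR k) s • vR (k + 1) := by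
      have : (Dz k : ℝ) • s
          = -((-cr s (vR (k + 1))) • vR k + (-cr (vR k) s) • vR (k + 1)) := by
        rw [eq_neg_iff_add_eq_zero, add_comm]; exact h0
      rw [this, neg_smul, neg_smul]; abel
    have e2 : s = (Dz k : ℝ)⁻¹ • ((Dz k : ℝ) • s) := by
      rw [smul_smul, inv_mul_cancel₀ hD.ne', one_smul]
    conv_lhs => rw [e2, e1, smul_add, smul_smul, smul_smul]
    congr 2 <;> ring_nf
  have n1 : N s ≤ cr s (vR (k + 1)) / Dz k + cr (vR k) s / Dz k := by
    calc N s = N ((cr s (vR (k + 1)) / Dz k) • vR k + (cr (vR k) s / Dz k) • vR (k + 1)) := by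
          rw [← e]
      _ ≤ N ((cr s (vR (k + 1)) / Dz k) • vR k) + N ((cr (vR k) s / Dz k) • vR (k + 1)) :=
          map_add_le_add N _ _
      _ = _ := by
          rw [map_smul_eq_mul, map_smul_eq_mul, N_vR (by omega), N_vR (by omega),
            Real.norm_of_nonneg (by positivity), Real.norm_of_nonneg (by positivity), mul_one,
            mul_one]
  have n2 : cr s (vR (k + 1)) / Dz k + cr (vR k) s / Dz k = pk k s := by
    rw [pk_apply, ← add_div]
    congr 1
    simp [cr, vR, E]; ring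
  rw [n2] at n1
  exact n1

end Pool.Agent.Helper68.DM
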