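import Mathlib
import Pool.Agent.Helper68.DM.Main

namespace Pool.Agent.Helper68.DM

theorem edR : (0 : ℝ) < ed := by norm_num [ed]

theorem kdR : (0 : ℝ) < kd := by norm_num [kd]

theorem cr_add_left (a b c : ℝ × ℝ) : cr (a + b) c = cr a c + cr b c := by simp [cr]; ring

theorem cr_sumz (a b c : ℕ) : cr (vR a) (vR b + vR c) = (crz (V a) (V b + V c) : ℝ) := by
  simp [cr, vR, crz]

theorem cr_sumz' (a b c : ℕ) : cr (vR b + vR c) (vR a) = (crz (V b + V c) (V a) : ℝ) := by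
  simp [cr, vR, crz]

theorem pk_sumz (k b c : ℕ) :
    pk k (vR b + vR c) = (crz (V b + V c) (E k) : ℝ) / (Dz k : ℝ) := by
  rw [pk_apply]; simp [vR, crz]

theorem pk_z (k b : ℕ) : pk k (vR b) = (crz (V b) (E k) : ℝ) / (Dz k : ℝ) := by
  rw [pk_apply]; simp [vR, crz]

/-- The local statement for the polygon. -/
theorem localStep {i : ℕ} (hi : i < 105) (hi1 : 1 ≤ i) {x z : ℝ × ℝ} (hx : N x = 1)
    (hz : N z = 1) (xz : 0 < cr x z) (hε : N (x + z) = eps) (Ax : 0 < cr (vR (i - 1)) x)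
    (xB : 0 ≤ cr x (vR i)) (p q : ℝ × ℝ →ₗ[ℝ] ℝ) (hp : ∀ u, p u ≤ N u) (hq : ∀ u, q u ≤ N u)
    (hpx : p x = 1) (hqz : q z = 1) : ∃ W, N W ≤ 1 ∧ kap ≤ p W + q W := by
  obtain ⟨g1, g0, w1, k1, l1, c1, c2, c3, c4, c5, c6, c7, c8, c9, c10⟩ := certs i hi hi1
  have c11 : 0 < Dz (i - 1) := D_pos _ (by omega)
  set G := (C i).1 with hG
  set w := (C i).2.1 with hw
  set k := (C i).2.2.1 with hk
  set l := (C i).2.2.2 with hl
  refine ⟨vR w, (N_vR w1).le, ?_⟩
  have hDk : (0 : ℝ) < Dz k := Dz_posR (by omega)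
  have hDl : (0 : ℝ) < Dz l := Dz_posR l1
  have hDi : (0 : ℝ) < Dz (i - 1) := Dz_posR (by omega)
  have hDG : (0 : ℝ) < Dz (G - 1) := Dz_posR (by omega)
  have AB : 0 < cr (vR (i - 1)) (vR i) := by
    rw [cr_vR]
    have : Dz (i - 1) = crz (V (i - 1)) (V i) := by
      rw [Dz, Nat.sub_add_cancel hi1]
    rw [← this]; exact hDi
  have s1 : N (vR i + vR G) < eps := by
    have h : N (vR i + vR G) ≤ pk k (vR i + vR G) := by
      apply norm_sum_lt k1
      · rw [cr_sumz]; exact_mod_cast c6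
      · rw [cr_sumz']; exact_mod_cast c7
    refine h.trans_lt ?_
    rw [pk_sumz, eps, div_lt_div_iff₀ hDk edR]
    have := c8
    rify at this
    linarith
  have s2 : eps < N (vR (i - 1) + vR w) := by
    refine lt_of_lt_of_le ?_ (pk_le (k := l) l1 _)
    rw [pk_sumz, eps, div_lt_div_iff₀ edR hDl]
    have := c9
    rify at this
    linarith
  have s3 : kap ≤ pk (i - 1) (vR w) + pk (G - 1) (vR w) := by
    rw [pk_z, pk_z, kap, div_add_div _ _ hDi.ne' hDG.ne', div_le_div_iff₀ kdR (by positivity)]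
    have := c10.le
    rify at this
    linarith
  refine core N (N_vR (by omega)) (N_vR (by omega)) (N_vR (by omega)) (N_vR w1) hx hz AB
    (by rw [cr_vR]; exact_mod_cast c1) (by rw [cr_vR]; exact_mod_cast c2)
    (by rw [cr_vR]; exact_mod_cast c3) (by rw [cr_vR]; exact_mod_cast c4)
    (by rw [cr_vR]; exact_mod_cast c5) s1 s2 (pk (i - 1)) (pk (G - 1))
    (fun u => pk_le (by omega) u) (fun u => pk_le (by omega) u) (pk_self (by omega)) ?_ s3 xz hε
    Ax xB p q hp hq hpx hqz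
  have := pk_next (k := G - 1) (by omega)
  rwa [Nat.sub_add_cancel g0] at this

end Pool.Agent.Helper68.DM
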