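import Mathlib
import Pool.Agent.Helper68.DM.Global

namespace Pool.Agent.Helper68.DM

theorem cr_vR_last (y : ℝ × ℝ) : cr (vR 104) y = - cr (vR 0) y := by
  have : vR 104 = - vR 0 := vR_neg (j := 0) (by norm_num)
  rw [this]; simp [cr]; ring

theorem scan {y : ℝ × ℝ} {j : ℕ} (hj : j < 104) (h0 : 0 < cr (vR j) y)
    (h1 : cr (vR 104) y ≤ 0) :
    ∃ i, 1 ≤ i ∧ i < 105 ∧ 0 < cr (vR (i - 1)) y ∧ cr (vR i) y ≤ 0 := by
  classical
  have hex : ∃ i, j < i ∧ cr (vR i) y ≤ 0 := ⟨104, hj, h1⟩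
  set m := Nat.find hex with hm
  obtain ⟨a, b⟩ := Nat.find_spec hex
  have hle : m ≤ 104 := Nat.find_min' hex ⟨hj, h1⟩
  refine ⟨m, by omega, by omega, ?_, b⟩
  rcases Nat.lt_or_ge j (m - 1) with h | h
  · have := Nat.find_min hex (m := m - 1) (by omega)
    push Not at this
    exact this h
  · have : m - 1 = j := by omega
    rw [this]; exact h0

theorem sector {x : ℝ × ℝ} (hx : x ≠ 0) : ∃ s : ℝ, (s = 1 ∨ s = -1) ∧
    ∃ i, 1 ≤ i ∧ i < 105 ∧ 0 < cr (vR (i - 1)) (s • x) ∧ 0 ≤ cr (s • x) (vR i) := by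
  have key : ∀ y : ℝ × ℝ, (0 < cr (vR 0) y ∨ (cr (vR 0) y = 0 ∧ 0 < cr (vR 1) y)) →
      ∃ i, 1 ≤ i ∧ i < 105 ∧ 0 < cr (vR (i - 1)) y ∧ 0 ≤ cr y (vR i) := by
    intro y hy
    have : ∃ i, 1 ≤ i ∧ i < 105 ∧ 0 < cr (vR (i - 1)) y ∧ cr (vR i) y ≤ 0 := by
      rcases hy with h | ⟨h, h'⟩
      · exact scan (j := 0) (by norm_num) h (by rw [cr_vR_last]; linarith)
      · exact scan (j := 1) (by norm_num) h' (by rw [cr_vR_last]; linarith)
    obtain ⟨i, a, b, c, d⟩ := this
    exact ⟨i, a, b, c, by rw [cr_anti]; linarith⟩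
  have neg : ∀ i, cr (vR i) ((-1 : ℝ) • x) = - cr (vR i) x := by
    intro i; simp [cr]; ring
  rcases lt_trichotomy (cr (vR 0) x) 0 with h | h | h
  · exact ⟨-1, Or.inr rfl, key _ (Or.inl (by rw [neg]; linarith))⟩
  · have h1 : cr (vR 1) x ≠ 0 := by
      intro h1
      apply hx
      have h0 := cr_smul_id (vR 0) (vR 1) x
      have a : cr x (vR 0) = 0 := by rw [cr_anti, h, neg_zero]
      rw [h1, a, zero_smul, zero_smul, zero_add, zero_add] at h0
      have hD : cr (vR 0) (vR 1) = (Dz 0 : ℝ) := cr_vR 0 1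
      rw [hD] at h0
      have := Dz_posR (k := 0) (by norm_num)
      exact (smul_eq_zero.mp h0).resolve_left this.ne'
    rcases lt_or_gt_of_ne h1 with h2 | h2
    · exact ⟨-1, Or.inr rfl, key _ (Or.inr ⟨by rw [neg, h, neg_zero], by rw [neg]; linarith⟩)⟩
    · exact ⟨1, Or.inl rfl, key _ (Or.inr ⟨by rw [one_smul]; exact h, by rw [one_smul]; exact h2⟩)⟩
  · exact ⟨1, Or.inl rfl, key _ (Or.inl (by rw [one_smul]; exact h))⟩

theorem posCase {x z : ℝ × ℝ} (hx : N x = 1) (hz : N z = 1) (xz : 0 < cr x z)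
    (hε : N (x + z) = eps) (p q : ℝ × ℝ →ₗ[ℝ] ℝ) (hp : ∀ u, p u ≤ N u) (hq : ∀ u, q u ≤ N u)
    (hpx : p x = 1) (hqz : q z = 1) : ∃ W, N W ≤ 1 ∧ kap ≤ p W + q W := by
  have hx0 : x ≠ 0 := by
    rintro rfl
    rw [map_zero] at hx; norm_num at hx
  obtain ⟨s, hs, i, i1, i2, h1, h2⟩ := sector hx0
  have hs2 : s * s = 1 := by rcases hs with rfl | rfl <;> norm_num
  have hsn : ‖s‖ = 1 := by rcases hs with rfl | rfl <;> norm_num
  have hN : ∀ u, N (s • u) = N u := fun u => by rw [map_smul_eq_mul, hsn, one_mul]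
  obtain ⟨W, hW, hk⟩ := localStep i2 i1 (x := s • x) (z := s • z) (by rw [hN, hx])
    (by rw [hN, hz])
    (by
      have : cr (s • x) (s • z) = (s * s) * cr x z := by simp [cr]; ring
      rw [this, hs2, one_mul]; exact xz)
    (by rw [← smul_add, hN, hε]) h1 h2 (s • p) (s • q)
    (fun u => by
      have : (s • p) u = p (s • u) := by simp
      rw [this]; exact (hp _).trans (hN u).le)
    (fun u => by
      have : (s • q) u = q (s • u) := by simp
      rw [this]; exact (hq _).trans (hN u).le)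
    (by
      have : (s • p) (s • x) = (s * s) * p x := by simp [mul_assoc]
      rw [this, hs2, hpx, one_mul])
    (by
      have : (s • q) (s • z) = (s * s) * q z := by simp [mul_assoc]
      rw [this, hs2, hqz, one_mul])
  refine ⟨s • W, by rw [hN]; exact hW, ?_⟩
  have e1 : (s • p) W = p (s • W) := by simp
  have e2 : (s • q) W = q (s • W) := by simp
  rw [← e1, ← e2]; exact hk

theorem eps_pos : 0 < eps := by norm_num [eps, en, ed]

theorem eps_lt : eps < 2 := by norm_num [eps, en, ed]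

theorem eps_lt_kap : eps < kap := by norm_num [eps, kap, en, ed, kn, kd]

theorem twoPoint {x z : ℝ × ℝ} (hx : N x = 1) (hz : N z = 1)
    (hε : N (x + z) = eps) (p q : ℝ × ℝ →ₗ[ℝ] ℝ) (hp : ∀ u, p u ≤ N u) (hq : ∀ u, q u ≤ N u)
    (hpx : p x = 1) (hqz : q z = 1) : ∃ W, N W ≤ 1 ∧ kap ≤ p W + q W := by
  rcases lt_trichotomy (cr x z) 0 with h | h | h
  · obtain ⟨W, hW, hk⟩ := posCase hz hx (by rw [cr_anti]; linarith) (by rw [add_comm, hε]) q p hq hp
      hqz hpx
    exact ⟨W, hW, by rw [add_comm]; exact hk⟩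
  · exfalso
    have hx0 : x ≠ 0 := by
      rintro rfl
      rw [map_zero] at hx; norm_num at hx
    obtain ⟨t, ht⟩ : ∃ t : ℝ, z = t • x := by
      set c : ℝ × ℝ := (-x.2, x.1) with hc
      have hcx : 0 < cr x c := by
        have e : cr x c = x.1 ^ 2 + x.2 ^ 2 := by simp [cr, hc]; ring
        rw [e]
        by_contra hcon
        apply hx0
        have a1 : x.1 ^ 2 = 0 := by nlinarith [sq_nonneg x.1, sq_nonneg x.2]
        have a2 : x.2 ^ 2 = 0 := by nlinarith [sq_nonneg x.1, sq_nonneg x.2]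
        ext
        · simpa using a1
        · simpa using a2
      have h0 := cr_smul_id x z c
      rw [h, zero_smul, add_zero] at h0
      have a1 : cr c x = - cr x c := cr_anti _ _
      rw [a1, neg_smul, ← sub_eq_add_neg, sub_eq_zero] at h0
      refine ⟨cr z c / cr x c, ?_⟩
      have e2 : z = (cr x c)⁻¹ • (cr x c • z) := by
        rw [smul_smul, inv_mul_cancel₀ hcx.ne', one_smul]
      conv_lhs => rw [e2, ← h0, smul_smul]
      congr 1
      ring
    have ht1 : |t| = 1 := by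
      rw [ht, map_smul_eq_mul, hx, mul_one, Real.norm_eq_abs] at hz
      exact hz
    have e : N (x + z) = |1 + t| := by
      have : x + z = (1 + t) • x := by rw [ht, add_smul, one_smul]
      rw [this, map_smul_eq_mul, hx, mul_one, Real.norm_eq_abs]
    rw [hε] at e
    have := eps_pos
    have := eps_lt
    rcases eq_or_eq_neg_of_abs_eq ht1 with h1 | h1
    · rw [h1] at e; norm_num at e; linarith
    · rw [h1] at e; norm_num at e; linarith
  · exact posCase hx hz h hε p q hp hq hpx hqz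

/-- The two-dimensional normed space. -/
abbrev X : Type := ↥(LinearMap.range Phi)

/-- The parametrization of `X` by the plane. -/
noncomputable def toX : ℝ × ℝ →ₗ[ℝ] X := Phi.rangeRestrict

theorem norm_toX (u : ℝ × ℝ) : ‖toX u‖ = N u := by
  rw [N_apply]; rfl

theorem toX_surj : Function.Surjective toX := LinearMap.surjective_rangeRestrict Phi

theorem bound (x₁ x₂ : X) (h1 : ‖x₁‖ = 1) (h2 : ‖x₂‖ = 1) (h12 : ‖x₁ - x₂‖ = eps)
    (p₁ p₂ : X →L[ℝ] ℝ) (hp1 : ‖p₁‖ = 1) (hp1x : p₁ x₁ = 1) (hp2 : ‖p₂‖ = 1)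
    (hp2x : p₂ x₂ = 1) : kap ≤ ‖p₁ - p₂‖ := by
  obtain ⟨u, rfl⟩ := toX_surj x₁
  obtain ⟨w, rfl⟩ := toX_surj x₂
  have n1 : N u = 1 := by rw [← norm_toX, h1]
  have n2 : N (-w) = 1 := by rw [map_neg_eq_map, ← norm_toX, h2]
  have n3 : N (u + -w) = eps := by rw [← norm_toX, ← sub_eq_add_neg, map_sub, h12]
  obtain ⟨W, hW, hk⟩ := twoPoint n1 n2 n3 ((p₁ : X →ₗ[ℝ] ℝ).comp toX)
    (-((p₂ : X →ₗ[ℝ] ℝ).comp toX))
    (fun v => by
      have := p₁.le_opNorm (toX v)
      rw [hp1, one_mul, norm_toX] at this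
      exact (le_abs_self _).trans this)
    (fun v => by
      have := p₂.le_opNorm (toX v)
      rw [hp2, one_mul, norm_toX] at this
      exact (neg_le_abs _).trans this)
    (by simpa using hp1x) (by simpa using hp2x)
  have h3 : (p₁ - p₂) (toX W) ≤ ‖p₁ - p₂‖ * ‖toX W‖ :=
    (le_abs_self _).trans ((p₁ - p₂).le_opNorm _)
  rw [norm_toX] at h3
  have h4 : (p₁ - p₂) (toX W) = p₁ (toX W) - p₂ (toX W) := rfl
  have h5 : kap ≤ p₁ (toX W) - p₂ (toX W) := by
    have : ((p₁ : X →ₗ[ℝ] ℝ).comp toX) W + (-((p₂ : X →ₗ[ℝ] ℝ).comp toX)) W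
        = p₁ (toX W) - p₂ (toX W) := by simp [sub_eq_add_neg]
    rw [← this]; exact hk
  rw [h4] at h3
  nlinarith [norm_nonneg (p₁ - p₂)]

theorem witZ : 0 ≤ crz (V 32) (128 * (V 19).1 + (V 49).1 + 127 * (V 50).1,
      128 * (V 19).2 + (V 49).2 + 127 * (V 50).2) ∧
    0 ≤ crz (128 * (V 19).1 + (V 49).1 + 127 * (V 50).1,
      128 * (V 19).2 + (V 49).2 + 127 * (V 50).2) (V 33) ∧
    crz (128 * (V 19).1 + (V 49).1 + 127 * (V 50).1,
      128 * (V 19).2 + (V 49).2 + 127 * (V 50).2) (E 32) * ed = 128 * Dz 32 * en := by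
  decide +kernel

/-- The second point of the witness pair. -/
noncomputable def wz : ℝ × ℝ := (1 / 128 : ℝ) • vR 49 + (127 / 128 : ℝ) • vR 50

theorem N_wz : N wz = 1 := by
  apply le_antisymm
  · calc N wz ≤ N ((1 / 128 : ℝ) • vR 49) + N ((127 / 128 : ℝ) • vR 50) := map_add_le_add N _ _
      _ = 1 := by
        rw [map_smul_eq_mul, map_smul_eq_mul, N_vR (by norm_num), N_vR (by norm_num)]
        norm_num
  · have h := pk_le (k := 49) (by norm_num) wz
    have e : pk 49 wz = 1 := by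
      rw [wz, map_add, map_smul, map_smul, pk_self (by norm_num), pk_next (k := 49) (by norm_num)]
      norm_num
    rwa [e] at h

theorem N_wit : N (vR 19 + wz) = eps := by
  obtain ⟨a, b, c⟩ := witZ
  have hD := Dz_posR (k := 32) (by norm_num)
  have e : pk 32 (vR 19 + wz) = eps := by
    rw [pk_apply, eps, div_eq_div_iff hD.ne' edR.ne']
    have := c
    simp only [crz] at this
    rify at this
    simp only [wz, vR, Prod.fst_add, Prod.snd_add, Prod.smul_fst, Prod.smul_snd, smul_eq_mul]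
    linarith
  apply le_antisymm
  · rw [← e]
    apply norm_sum_lt (by norm_num)
    · have := a
      simp only [crz] at this
      rify at this
      simp only [cr, wz, vR, Prod.fst_add, Prod.snd_add, Prod.smul_fst, Prod.smul_snd, smul_eq_mul]
      linarith
    · have := b
      simp only [crz] at this
      rify at this
      simp only [cr, wz, vR, Prod.fst_add, Prod.snd_add, Prod.smul_fst, Prod.smul_snd, smul_eq_mul]
      linarith
  · rw [← e]; exact pk_le (by norm_num) _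

theorem Phi_inj : Function.Injective Phi := by
  rw [injective_iff_map_eq_zero]
  intro u hu
  have h0 : pk 0 u = 0 := by
    have := congrFun hu ⟨0, by norm_num⟩
    rwa [Phi_apply] at this
  have h1 : pk 1 u = 0 := by
    have := congrFun hu ⟨1, by norm_num⟩
    rwa [Phi_apply] at this
  have D0 := Dz_posR (k := 0) (by norm_num)
  have D1 := Dz_posR (k := 1) (by norm_num)
  rw [pk_apply, div_eq_zero_iff, or_iff_left D0.ne'] at h0
  rw [pk_apply, div_eq_zero_iff, or_iff_left D1.ne'] at h1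
  have hE : crz (E 0) (E 1) ≠ 0 := by decide +kernel
  have hE' : ((E 0).1 * (E 1).2 - (E 0).2 * (E 1).1 : ℝ) ≠ 0 := by
    have : ((crz (E 0) (E 1) : ℤ) : ℝ) ≠ 0 := by exact_mod_cast hE
    simpa [crz] using this
  have a1 : u.1 * ((E 0).1 * (E 1).2 - (E 0).2 * (E 1).1 : ℝ) = 0 := by linear_combination (E 0).1 * h1 - (E 1).1 * h0
  have a2 : u.2 * ((E 0).1 * (E 1).2 - (E 0).2 * (E 1).1 : ℝ) = 0 := by linear_combination (E 0).2 * h1 - (E 1).2 * h0
  ext
  · exact (mul_eq_zero.mp a1).resolve_right hE'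
  · exact (mul_eq_zero.mp a2).resolve_right hE'

theorem finrank_X : Module.finrank ℝ X = 2 := by
  rw [LinearMap.finrank_range_of_inj Phi_inj]
  simp

end Pool.Agent.Helper68.DM
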